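import Pool.Agent.Helper41_IR.All

/-!
# MP_1906c1_mp: the kinetic mean free path, uniformly up to the band edge

For the Anderson Hamiltonian `H_σ = Δ + σ ξ` on `ℤ^d`, `d ≥ 3`, with independent standard Gaussian
`ξ(x)`, at weak disorder. Let `Es` be the effective band edge (see below) and `lam = Es - |E|` the
distance of the energy `E` from it. Second order perturbation theory (Fermi's golden rule)
predicts for the width of the spectral function and for the mean free path

`η ≈ σ² lam^((d-2)/2)`, `ℓ ≈ σ⁻² lam^(-(d-3)/2)`.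

We show that outside an event of probability at most `1 / R`, for all energies with
`C / t ≤ lam ≤ c`, every `v ∈ ℓ²(ℤ^d)` with `‖(H_σ - E) v‖ ≤ η ‖v‖` (for example every
eigenfunction with the eigenvalue `E`) has in each ball of radius `ρ`, with the centre in the ball
of radius `R`, at most the fraction

`C (log R)^(d+5) σ² lam^((d-3)/2) (ρ + lam^(-1/2))`

of its mass: such states are spread out at least to the length `ℓ`, up to a power of `log R`.
Here `t ≤ R` and `1 / |σ| ≤ R` are restricted only by `σ² growth(d, t) log R ≤ c`,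
`growth = √t, 1 + log t, 1` for `d = 3`, `d = 4`, `d ≥ 5`. For `d = 3` this includes all the
energies with `lam ≥ C' σ⁴ (log R)²`; the bound becomes trivial only at `lam ≈ σ⁴` (up to powers of
`log R`), where the mean free path `σ⁻²` is the wave length `lam^(-1/2)` (the criterion of Ioffe and
Regel for the mobility edge). For `d ≥ 5` one can take `t = R = exp(c'/σ²)`.

The proof. Averages `w` of `v` over cubes of side `l ≈ lam^(-1/2)` satisfy `(1 - B) w = small` with a
Schur complement `B`, well defined since the landscape function `(z - σ ξ - Δ)⁻¹ 1` is flat (so that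
there is a gap after adding a penalty for the averages); Gaussian interpolation and the
noncommutative Khintchine inequality show that `B` is close to its mean, which is a convolution;
its symbol is controlled by the flatness of the landscape function.
-/

set_option autoImplicit false

open MeasureTheory ProbabilityTheory

open scoped ENNReal

namespace Pool.Agent.Results.MP_1906c1_mp.BandEdgeMeanFreePath

open Pool.Agent.Anderson Pool.Agent.Loc Pool.Agent.BED

universe u

/-- Let `d ≥ 3` and let `ξ(y)`, `y ∈ ℤ^d`, be independent standard Gaussians, `H_σ = Δ + σ ξ`. There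
are `c, C > 0` such that for all `σ ≠ 0` and all `2 ≤ t ≤ R` with `1 / |σ| ≤ R` and
`σ² growth(d, t) log R ≤ c` (`growth(d, t) = √t` for `d = 3`, `1 + log t` for `d = 4`, `1` for
`d ≥ 5`) there is a non-random `Es` with `|Es - 2d| ≤ C (σ² + 1/t)` and an event `G` with
`P(Gᶜ) ≤ 1/R` on which:

* for all real `E` such that `lam = Es - |E|` is in `[C/t, c]`, all `v, r ∈ ℓ²(ℤ^d)` with
  `(H_σ - E) v = r`, all sites `|x|_∞ ≤ R` and all `ρ ≥ 0`, the sum of `|v(y)|²` over
  `|y - x|_∞ ≤ ρ` is at most `C (log R)^(d+5) σ² lam^((d-3)/2) (ρ + lam^(-1/2))` times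
  `‖v‖² + (‖r‖ / (σ² lam^((d-2)/2)))²`;
* `Es` is the effective band edge: in every box contained in `|x|_∞ ≤ R` all eigenvalues of the
  restriction of `H_σ` are less than `Es` in absolute value, and if the radius `L` of the box
  satisfies `lam L² ≥ C`, at least `C⁻¹ lam^(d/2) (2L+1)^d` of them are `≥ Es - lam`, for
  `C/t ≤ lam ≤ 1`. -/
theorem result (d : ℕ) (hd : 3 ≤ d) :
    ∃ c C : ℝ, 0 < c ∧ 0 < C ∧ ∀ σ : ℝ, σ ≠ 0 → ∀ t R : ℝ, 2 ≤ t → t ≤ R → 1 / |σ| ≤ R →
      σ ^ 2 * growth d t * Real.log R ≤ c →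
      ∃ Es : ℝ, |Es - 2 * d| ≤ C * (σ ^ 2 + 1 / t) ∧
        ∀ (Ω : Type u) [MeasurableSpace Ω] (P : Measure Ω) [IsProbabilityMeasure P]
          (ξ : Site d → Ω → ℝ), (∀ y, Measurable (ξ y)) →
          (∀ y, P.map (ξ y) = gaussianReal 0 1) → iIndepFun ξ P →
          ∃ G : Set Ω, MeasurableSet G ∧ P Gᶜ ≤ ENNReal.ofReal (1 / R) ∧ ∀ ω ∈ G,
            (∀ E lam : ℝ, lam = Es - |E| → C / t ≤ lam → lam ≤ c →
              ∀ v r : L2 d,
                (∀ y, lap v y + ((σ * ξ y ω : ℝ) : ℂ) * v y - (E : ℂ) * v y = r y) →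
                ∀ (x : Site d) (ρ : ℕ), (∀ i, |(x i : ℝ)| ≤ R) →
                  ∑ y ∈ Loc.box x ρ, ‖v y‖ ^ 2 ≤
                    C * Real.log R ^ (d + 5) * σ ^ 2 * lam ^ (((d : ℝ) - 3) / 2) *
                      (ρ + lam ^ (-(1 / 2) : ℝ)) *
                        (‖v‖ ^ 2 + (‖r‖ / (σ ^ 2 * lam ^ (((d : ℝ) - 2) / 2))) ^ 2)) ∧
            ∀ (x₀ : Site d) (L : ℕ), (∀ i, |(x₀ i : ℝ)| + L ≤ R) →
              ∀ hH : (HM (fun y => σ * ξ y ω) (Loc.box x₀ L)).IsHermitian,
                (∀ i, |hH.eigenvalues i| < Es) ∧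
                ∀ lam : ℝ, C / t ≤ lam → lam ≤ 1 → C ≤ lam * (L : ℝ) ^ 2 →
                  lam ^ ((d : ℝ) / 2) * (2 * (L : ℝ) + 1) ^ d ≤
                    C * ((Finset.univ.filter fun i => Es - lam ≤ hH.eigenvalues i).card : ℝ) :=
  Pool.Agent.IR.final d hd

end Pool.Agent.Results.MP_1906c1_mp.BandEdgeMeanFreePath
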