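import Pool.Agent.Helper54_LOC.Final
import Pool.Agent.Helper48_LOC.Up
import Pool.Agent.Helper48_LOC.GreenLow
import Pool.Agent.Helper73_LOC.Expc
import Pool.Agent.Helper28_LOC.Low

/-!
# MP_1906c1_mp, part (2a): localization up to the edge `E₀ = 2d + G_d σ² + O(|σ|^(2 + 1/(24 d)))`

For the Anderson Hamiltonian `H_σ = Δ + σ ξ` on `ℤ^d`, `d ≥ 3`, with independent standard Gaussian
`ξ(x)`, there is for each `σ ≠ 0` a number `E₀ = E₀(σ)`, with
`|E₀ - (2d + G_d σ²)| ≤ C |σ|^(2 + 1/(24 d))`, such that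

* almost surely, exponential localization holds in the two intervals `|E| ≥ E₀`;
* for small `σ`, the integrated density of states of `[E₀ - λ, ∞)` is at least `c λ^(d/2)`, as for
  the free Laplacian at its edge, for all `λ` down to `exp(- c / σ²)` (`d ≥ 5`),
  `exp(- c / |σ|)` (`d = 4`), `C σ⁴ log² (1/|σ|)` (`d = 3`).

Here `G_d = (2d - Δ)⁻¹(0, 0)` is the lattice Green function at the edge of the spectrum of `Δ`. So
the localized region is exhausted (up to the `λ` above) to the point where the density of states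
becomes free.

The proof. (A) The landscape function `u = (z - H)⁻¹ 1` on a torus: for a suitable (not random) `z`
(found by continuity in the inverse temperature of the polymer measure) the function `u` is
nearly constant with overwhelming probability; a positive function with `(z - H) u > 0` of almost
constant values gives a spectral gap above, and a Poincaré type inequality (a Faber-Krahn
inequality for the form twisted by `u`) shows that the eigenvalues below are as those of the free
Laplacian. (B) The fractional moment method started from this gap. (C) The position of the edge: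
upper bound from a recursion for moments; lower bound from a variational computation with the test
function `1 + G V 1`.
-/

set_option autoImplicit false

open MeasureTheory ProbabilityTheory

open scoped ENNReal NNReal ComplexInnerProductSpace

namespace Pool.Agent.Results.MP_1906c1_mp.LocalizationUpToEdge

open Pool.Agent.Anderson Pool.Agent.Loc Pool.Agent.LOC

universe u

/-- Let `d ≥ 3` and let `ξ(y)`, `y ∈ ℤ^d`, be independent standard Gaussians, `H_σ = Δ + σ ξ`. There
are `c, C > 0` such that for each `σ ≠ 0` there are `E₀` and `m > 0` with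
`|E₀ - (2d + G_d σ²)| ≤ C |σ|^(2 + 1/(24 d))` such that

* almost surely every polynomially bounded solution `ψ` of `H_σ ψ = E ψ`, `|E| ≥ E₀`, decays
  exponentially with the rate `m`, and a vector `u ∈ ℓ²` with `w = H_σ u ∈ ℓ²` which is
  orthogonal to all the eigenfunctions with eigenvalues `|E| ≥ E₀` satisfies `‖w‖ ≤ E₀ ‖u‖`;
* if `|σ| ≤ c` and `window d c σ ≤ lam ≤ 1`, then for all large `L` the expected number of
  eigenvalues `≥ E₀ - lam` of `H_σ` restricted to `[-L, L]^d` is at least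
  `c lam^(d/2) (2 L + 1)^d`. -/
theorem result (d : ℕ) (hd : 3 ≤ d) :
    ∃ c C : ℝ, 0 < c ∧ 0 < C ∧ ∀ σ : ℝ, σ ≠ 0 → ∃ E₀ m : ℝ, 0 < m ∧
      |E₀ - (2 * d + watson d * σ ^ 2)| ≤ C * |σ| ^ (2 + 1 / (24 * d : ℝ)) ∧
      ∀ (Ω : Type u) [MeasurableSpace Ω] (P : Measure Ω) [IsProbabilityMeasure P]
        (ξ : Site d → Ω → ℝ), (∀ y, Measurable (ξ y)) →
        (∀ y, P.map (ξ y) = gaussianReal 0 1) → iIndepFun ξ P →
        (∀ᵐ ω ∂P,
          (∀ E : ℝ, E₀ ≤ |E| → ∀ ψ : Site d → ℂ,
            (∃ (K : ℝ) (k : ℕ), ∀ x, ‖ψ x‖ ≤ K * (1 + (sd 0 x : ℝ)) ^ k) →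
            (∀ x, lap ψ x + ((σ * ξ x ω : ℝ) : ℂ) * ψ x = (E : ℂ) * ψ x) →
            ∃ K : ℝ, ∀ x, ‖ψ x‖ ≤ K * Real.exp (-m * sd 0 x)) ∧
          (∀ u w : L2 d, (∀ x, w x = lap u x + ((σ * ξ x ω : ℝ) : ℂ) * u x) →
            (∀ (E : ℝ) (ψ : L2 d), E₀ ≤ |E| → IsEigen (fun x => σ * ξ x ω) E ψ →
              ⟪ψ, u⟫ = 0) →
            ‖w‖ ≤ E₀ * ‖u‖)) ∧
        (|σ| ≤ c → ∀ lam : ℝ, window d c σ ≤ lam → lam ≤ 1 → ∃ L₀ : ℕ, ∀ L : ℕ, L₀ ≤ L →
          ENNReal.ofReal (c * lam ^ ((d : ℝ) / 2) * (2 * (L : ℝ) + 1) ^ d) ≤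
            ∫⁻ ω, (nAbove (fun y => σ * ξ y ω) (box 0 L) (E₀ - lam) : ℝ≥0∞) ∂P) :=
  loc_of H48.up H73.expcAll (H28.low H48.greenLow) d hd

end Pool.Agent.Results.MP_1906c1_mp.LocalizationUpToEdge
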