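import Pool.Agent.Helper42_Mob.Ass3

/-!
# MP_1906c1_mp: the transport transition for the Gaussian Anderson model

For `H = Δ + σ ξ` on `ℤ^d` (any `d ≥ 1`), `ξ` iid standard Gaussian, and any `σ ≠ 0`, the energies
are divided into an open set `Loc` and its complement.

* In `Loc`: exponential localization, completeness of the localized eigenfunctions, and dynamical
  localization: the mean mass which is moved, at energies of a compact interval of `Loc`, further
  than `T^β` in the time `T` is smaller than any power of `1/T`, for each `β > 0`.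
* Outside `Loc`: near each such energy the mean mass which is moved further than
  `T^(1/(d + δ))` in the time `T` is at least `T^(-6)`, for all large `T`, for each `δ > 0`. The mean
  time averaged moments of order `p` are at least `T^(p/(d + δ) - 6)`, if `Loc ≠ ℝ`.

So `Loc` is determined by the dynamics, there is exactly one such set: the local transport exponent
is `0` in `Loc` and at least `1/d` outside; it has no value in `(0, 1/d)`. (Germinet and Klein: no
value in `(0, 1/(2d))`.) The number `1/d` is the value which is predicted at the mobility edge.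
For `d ≥ 3` all energies with large `|E|` are in `Loc`.

The proof. Outside: if the spreading is slower than stated, the Green functions in cubes of side
`ℓ = T^(1/(d+δ))` at the height `1/T` above the real axis are small, and analytic
continuation (with a Gaussian weight) brings them down to the real axis, at the energy `E`, because
there is no eigenvalue at distance `ℓ^(-d-δ/2)` from `E`, with high probability
(Wegner). This is the gain: the distance to the spectrum is used instead of the bound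
`1/Im z` and the resolvent identity. Then annuli of good cells give a finite volume criterion for
fractional moments. Inside: fractional moments in the bulk of cubes, two distant cubes are not
resonant at the same energy, expansion in eigenvectors.
-/

set_option autoImplicit false

open MeasureTheory ProbabilityTheory

open scoped ENNReal ComplexInnerProductSpace

noncomputable section

namespace Pool.Agent.Results.MP_1906c1_mp.TransportTransition

open Pool.Agent.Anderson Pool.Agent.Loc Pool.Agent.Helper54.Bal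

universe u

variable {d : ℕ}

/-- `(H - z)⁻¹ δ₀` for `H = Δ + V`: the solution `g ∈ ℓ²(ℤ^d)` of `(Δ + V - z) g = δ₀`. For
`Im z ≠ 0` it exists and is unique. -/
def green (V : Site d → ℝ) (z : ℂ) : L2 d :=
  open Classical in
  if h : ∃ g : L2 d, ∀ x, lap g x + ((V x : ℂ) - z) * g x = if x = 0 then 1 else 0 then
    h.choose else 0

/-- The time averaged mass at distance at least `R` from `0` at the time scale `T`, for the energies
in `(a, b)`: `(1/T) ∫_a^b ∑_{|x| ≥ R} |(H - E - i/T)⁻¹(0, x)|² dE`. Without the restriction on the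
energies it is `(2 π / T) ∫₀^∞ e^(-2t/T) ∑_{|x| ≥ R} |(e^(-itH) δ₀)(x)|² dt`. -/
def spreading (V : Site d → ℝ) (T R a b : ℝ) : ℝ≥0∞ :=
  ∫⁻ E in Set.Ioo a b, ∑' x : Site d, if R ≤ (sd 0 x : ℝ) then
    ENNReal.ofReal (‖green V ((E : ℂ) + Complex.I / T) x‖ ^ 2 / T) else 0

/-- The time averaged moment `(2/T) ∫₀^∞ e^(-2t/T) ∑_x |x|^p |ψ_t(x)|² dt`. -/
def moment (ψ : ℝ → L2 d) (T p : ℝ) : ℝ≥0∞ :=
  ∫⁻ t in Set.Ioi (0 : ℝ), ∑' x : Site d,
    ENNReal.ofReal (2 / T * Real.exp (-2 * t / T) * ((sd 0 x : ℝ) ^ p * ‖ψ t x‖ ^ 2))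

theorem green_eq (V : Site d → ℝ) {z : ℂ} (hz : z.im ≠ 0) : green V z = G V z (del 0) := by
  have hdel : ∀ x, (del (0 : Site d) : L2 d) x = if x = 0 then 1 else 0 := fun x => del_apply 0 x
  have hex : ∃ g : L2 d, ∀ x, lap g x + ((V x : ℂ) - z) * g x = if x = 0 then 1 else 0 :=
    ⟨G V z (del 0), fun x => (G_eq hz (del 0) x).trans (hdel x)⟩
  unfold green
  rw [dif_pos hex]
  exact G_unique hz fun x => (hex.choose_spec x).trans (hdel x).symm

theorem spreading_eq (V : Site d → ℝ) {T : ℝ} (hT : T ≠ 0) (R a b : ℝ) :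
    spreading V T R a b = Pool.Agent.Mob.spread V T R (Set.Ioo a b) := by
  unfold spreading Pool.Agent.Mob.spread
  refine lintegral_congr fun E => tsum_congr fun x => ?_
  have h1 : (E : ℂ) + Complex.I / T = zz (1 / T) E := by
    unfold zz
    push_cast
    ring
  have h2 : (zz (1 / T) E).im ≠ 0 := by
    rw [zz_im]
    exact one_div_ne_zero hT
  rw [h1, green_eq V h2]

/-- independent standard Gaussians exist in each universe -/
theorem exists_iid (d : ℕ) : ∃ (Ω : Type u) (_ : MeasurableSpace Ω) (P : Measure Ω)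
    (_ : IsProbabilityMeasure P) (ξ : Site d → Ω → ℝ), (∀ y, Measurable (ξ y)) ∧
    (∀ y, P.map (ξ y) = gaussianReal 0 1) ∧ iIndepFun ξ P := by
  classical
  let Q : Measure (Site d → ℝ) := Measure.infinitePi fun _ => gaussianReal 0 1
  have hup : Measurable (ULift.up : (Site d → ℝ) → ULift.{u} (Site d → ℝ)) := measurable_up
  have hdn : Measurable (ULift.down : ULift.{u} (Site d → ℝ) → (Site d → ℝ)) := measurable_down
  have hP : IsProbabilityMeasure (Q.map (ULift.up : (Site d → ℝ) → ULift.{u} (Site d → ℝ))) :=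
    Measure.isProbabilityMeasure_map hup.aemeasurable
  have hm : ∀ y : Site d, Measurable fun ω : ULift.{u} (Site d → ℝ) => ω.down y :=
    fun y => (measurable_pi_apply y).comp hdn
  have hlaw : ∀ y : Site d, (Q.map (ULift.up : (Site d → ℝ) → ULift.{u} (Site d → ℝ))).map
      (fun ω => ω.down y) = gaussianReal 0 1 := by
    intro y
    rw [Measure.map_map (hm y) hup]
    exact (measurePreserving_eval_infinitePi (fun _ : Site d => gaussianReal 0 1) y).map_eq
  refine ⟨ULift.{u} (Site d → ℝ), ULift.instMeasurableSpace, Q.map ULift.up, hP,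
    fun y ω => ω.down y, hm, hlaw, ?_⟩
  rw [iIndepFun_iff_map_fun_eq_infinitePi_map hm]
  have e1 : (Q.map (ULift.up : (Site d → ℝ) → ULift.{u} (Site d → ℝ))).map
      (fun ω (y : Site d) => ω.down y) = Q := by
    rw [Measure.map_map (measurable_pi_iff.2 hm) hup]
    exact Measure.map_id
  rw [e1]
  simp only [hlaw]
  rfl

/-- Let `d ≥ 1`, `ξ(y)`, `y ∈ ℤ^d`, independent standard Gaussians, `H = Δ + σ ξ`. The spreading is
a measurable function of the potential. For each `σ ≠ 0` there is exactly one open set `Loc` of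
energies with

* if `d ≥ 3`, all `|E| > K` are in `Loc`, for some `K`;
* for each compact `K ⊆ Loc`, almost surely, every polynomially bounded solution of `H ψ = E ψ`
  with `E ∈ K` decays exponentially, with a rate `m > 0` which depends on `K`;
* almost surely, for all `[c - r, c + r] ⊆ Loc`: a vector `u ∈ ℓ²` with `w = H u ∈ ℓ²` which is
  orthogonal to the eigenfunctions with eigenvalues in `[c - r, c + r]` satisfies
  `‖(H - c) u‖ ≥ r ‖u‖`, so the spectrum is pure point in `(c - r, c + r)`;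
* if `[a, b] ⊆ Loc` then, for all `β > 0` and `k`, the mean of `spreading T (T ^ β) a b` is at most
  `T ^ (-k)` for large `T`;
* if `(a, b)` is not contained in `Loc`, the mean of `spreading T (T ^ (1/(d+δ))) a b` is at least
  `T ^ (-6)`, for all large `T`, for each `δ ∈ (0, 1]`;
* if `Loc ≠ ℝ`, the mean of the time averaged moment of order `p > 0` is at least
  `T ^ (p/(d + δ) - 6)`, for all large `T`, for each `δ ∈ (0, 1]`. -/
theorem result (d : ℕ) (hd : 1 ≤ d) :
    (∀ T R a b : ℝ, 0 < T → Measurable fun V : Site d → ℝ => spreading V T R a b) ∧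
    ∀ σ : ℝ, σ ≠ 0 → ∃! Loc : Set ℝ, IsOpen Loc ∧
      (3 ≤ d → ∃ K : ℝ, ∀ E : ℝ, K < |E| → E ∈ Loc) ∧
      ∀ (Ω : Type u) [MeasurableSpace Ω] (P : Measure Ω) [IsProbabilityMeasure P]
        (ξ : Site d → Ω → ℝ), (∀ y, Measurable (ξ y)) →
        (∀ y, P.map (ξ y) = gaussianReal 0 1) → iIndepFun ξ P →
        (∀ K : Set ℝ, IsCompact K → K ⊆ Loc → ∃ m : ℝ, 0 < m ∧ ∀ᵐ ω ∂P, ∀ E ∈ K,
          ∀ ψ : Site d → ℂ,
            (∃ (B : ℝ) (k : ℕ), ∀ x, ‖ψ x‖ ≤ B * (1 + (sd 0 x : ℝ)) ^ k) →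
            (∀ x, lap ψ x + ((σ * ξ x ω : ℝ) : ℂ) * ψ x = (E : ℂ) * ψ x) →
            ∃ B : ℝ, ∀ x, ‖ψ x‖ ≤ B * Real.exp (-m * sd 0 x)) ∧
        (∀ᵐ ω ∂P, ∀ c r : ℝ, Set.Icc (c - r) (c + r) ⊆ Loc → ∀ u w : L2 d,
          (∀ x, w x = lap u x + ((σ * ξ x ω : ℝ) : ℂ) * u x) →
          (∀ (E : ℝ) (ψ : L2 d), E ∈ Set.Icc (c - r) (c + r) →
            IsEigen (fun x => σ * ξ x ω) E ψ → ⟪ψ, u⟫ = 0) →
          r * ‖u‖ ≤ ‖w - (c : ℂ) • u‖) ∧
        (∀ a b β k : ℝ, Set.Icc a b ⊆ Loc → 0 < β → ∃ T₀ : ℝ, ∀ T : ℝ, T₀ ≤ T →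
          ∫⁻ ω, spreading (fun x => σ * ξ x ω) T (T ^ β) a b ∂P ≤ ENNReal.ofReal (T ^ (-k))) ∧
        (∀ a b δ : ℝ, ¬ Set.Ioo a b ⊆ Loc → 0 < δ → δ ≤ 1 → ∃ T₀ : ℝ, ∀ T : ℝ, T₀ ≤ T →
          ENNReal.ofReal (T ^ (-6 : ℝ)) ≤
            ∫⁻ ω, spreading (fun x => σ * ξ x ω) T (T ^ (1 / ((d : ℝ) + δ))) a b ∂P) ∧
        (Loc ≠ Set.univ → ∀ δ p : ℝ, 0 < δ → δ ≤ 1 → 0 < p → ∃ T₀ : ℝ, ∀ T : ℝ, T₀ ≤ T →
          ∀ ψ : Ω → ℝ → L2 d, (∀ ω, IsEvolution (fun x => σ * ξ x ω) (ψ ω)) →
            ENNReal.ofReal (T ^ (p / ((d : ℝ) + δ) - 6)) ≤ ∫⁻ ω, moment (ψ ω) T p ∂P) := by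
  constructor
  · intro T R a b hT
    have h := Pool.Agent.Mob.H42.measurable_spread (d := d) Pool.Agent.Mob.H25.shf
      (gaussianReal 0 1) hT R a b
    have e : (fun V : Site d → ℝ => spreading V T R a b) =
        fun V => Pool.Agent.Mob.spread V T R (Set.Ioo a b) :=
      funext fun V => spreading_eq V hT.ne' R a b
    rw [e]
    exact h
  intro σ hσ
  obtain ⟨σ₁, C, hσ₁, hC, h⟩ := Pool.Agent.Mob.main3T.{u} d hd
  obtain ⟨Loc, h1, h2, h3, h4⟩ := h σ hσ
  refine ⟨Loc, ⟨h1, fun hd3 => ⟨_, h3 hd3⟩, ?_⟩, ?_⟩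
  · intro Ω _ P _ ξ hm hlaw hind
    obtain ⟨g1, g2, g3, g4, g5⟩ := h4 Ω P ξ hm hlaw hind
    refine ⟨g1, g2, ?_, ?_, g5⟩
    · intro a b β k hab hβ
      obtain ⟨T₀, hT⟩ := g3 a b β k hab hβ
      refine ⟨max T₀ 1, fun T hTT => ?_⟩
      have hT0 : T ≠ 0 := (lt_of_lt_of_le one_pos ((le_max_right _ _).trans hTT)).ne'
      simp only [spreading_eq _ hT0]
      exact hT T ((le_max_left _ _).trans hTT)
    · intro a b δ hab hδ hδ1
      obtain ⟨T₀, hT⟩ := g4 a b δ hab hδ hδ1
      refine ⟨max T₀ 1, fun T hTT => ?_⟩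
      have hT0 : T ≠ 0 := (lt_of_lt_of_le one_pos ((le_max_right _ _).trans hTT)).ne'
      simp only [spreading_eq _ hT0]
      exact hT T ((le_max_left _ _).trans hTT)
  · rintro Loc' ⟨k1, -, k4⟩
    obtain ⟨Ω, _, P, _, ξ, hm, hlaw, hind⟩ := exists_iid.{u} d
    obtain ⟨-, -, g3, g4, -⟩ := h4 Ω P ξ hm hlaw hind
    obtain ⟨-, -, k3, k4, -⟩ := k4 Ω P ξ hm hlaw hind
    -- the common argument: an energy of one set near which the other set has a gap
    have key : ∀ a b : ℝ, (∀ β k : ℝ, 0 < β → ∃ T₀ : ℝ, ∀ T : ℝ, T₀ ≤ T →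
          ∫⁻ ω, Pool.Agent.Mob.spread (fun x => σ * ξ x ω) T (T ^ β) (Set.Ioo a b) ∂P ≤
            ENNReal.ofReal (T ^ (-k))) →
        (∃ T₀ : ℝ, ∀ T : ℝ, T₀ ≤ T → ENNReal.ofReal (T ^ (-6 : ℝ)) ≤
            ∫⁻ ω, Pool.Agent.Mob.spread (fun x => σ * ξ x ω) T (T ^ (1 / ((d : ℝ) + 1)))
              (Set.Ioo a b) ∂P) → False := by
      intro a b H1 H2
      obtain ⟨T₁, hT₁⟩ := H1 (1 / ((d : ℝ) + 1)) 7 (by positivity)
      obtain ⟨T₂, hT₂⟩ := H2
      set T := max 2 (max T₁ T₂) with hT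
      have hT2 : 2 ≤ T := le_max_left _ _
      have a1 := hT₁ T ((le_max_left _ _).trans (le_max_right _ _))
      have a2 := hT₂ T ((le_max_right _ _).trans (le_max_right _ _))
      have a3 := a2.trans a1
      have hpos : (0 : ℝ) < T ^ (-7 : ℝ) := Real.rpow_pos_of_pos (by linarith) _
      rw [ENNReal.ofReal_le_ofReal_iff hpos.le] at a3
      have a4 : T ^ (-7 : ℝ) < T ^ (-6 : ℝ) :=
        Real.rpow_lt_rpow_of_exponent_lt (by linarith) (by norm_num)
      linarith
    have small : ∀ L : Set ℝ, IsOpen L → ∀ E ∈ L, ∃ a b : ℝ, a < E ∧ E < b ∧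
        Set.Icc a b ⊆ L := by
      intro L hL E hE
      obtain ⟨r, hr, hsub⟩ := Metric.isOpen_iff.1 hL E hE
      refine ⟨E - r / 2, E + r / 2, by linarith, by linarith, fun F hF => hsub ?_⟩
      rw [Metric.mem_ball, Real.dist_eq, abs_lt]
      constructor <;> linarith [hF.1, hF.2]
    apply Set.Subset.antisymm
    · intro E hE
      by_contra hcon
      obtain ⟨a, b, ha, hb, hsub⟩ := small Loc' k1 E hE
      refine key a b ?_ ?_
      · intro β k hβ
        obtain ⟨T₀, hT⟩ := k3 a b β k hsub hβ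
        refine ⟨max T₀ 1, fun T hTT => ?_⟩
        have hT0 : T ≠ 0 := (lt_of_lt_of_le one_pos ((le_max_right _ _).trans hTT)).ne'
        have := hT T ((le_max_left _ _).trans hTT)
        simp only [spreading_eq _ hT0] at this
        exact this
      · exact g4 a b 1 (fun hs => hcon (hs ⟨ha, hb⟩)) one_pos le_rfl
    · intro E hE
      by_contra hcon
      obtain ⟨a, b, ha, hb, hsub⟩ := small Loc h1 E hE
      refine key a b (fun β k hβ => g3 a b β k hsub hβ) ?_
      obtain ⟨T₀, hT⟩ := k4 a b 1 (fun hs => hcon (hs ⟨ha, hb⟩)) one_pos le_rfl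
      refine ⟨max T₀ 1, fun T hTT => ?_⟩
      have hT0 : T ≠ 0 := (lt_of_lt_of_le one_pos ((le_max_right _ _).trans hTT)).ne'
      have := hT T ((le_max_left _ _).trans hTT)
      simp only [spreading_eq _ hT0] at this
      exact this

end Pool.Agent.Results.MP_1906c1_mp.TransportTransition
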